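import Mathlib

set_option autoImplicit false

/-!
# Power series over `ZMod p` and the powers `(1 + X) ^ z`, `z` a `p`-adic integer
-/

namespace Pool.Agent.H435R3.Lamp

open PowerSeries Filter Topology
open scoped PowerSeries.WithPiTopology

variable (p : ℕ) [hp : Fact p.Prime]

/-- power series over the field with `p` elements -/
abbrev A := PowerSeries (ZMod p)

instance : DiscreteTopology (ZMod p) := ⟨rfl⟩

instance : CompactSpace (A p) := inferInstanceAs (CompactSpace ((Unit →₀ ℕ) → ZMod p))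
instance : TotallyDisconnectedSpace (A p) :=
  inferInstanceAs (TotallyDisconnectedSpace ((Unit →₀ ℕ) → ZMod p))

example : T2Space (A p) := inferInstance
example : IsTopologicalRing (A p) := inferInstance

variable {p}

lemma continuous_of_coeff {T : Type} [TopologicalSpace T] (f : T → A p)
    (h : ∀ n, Continuous fun t => coeff n (f t)) : Continuous f := by
  rw [continuous_iff_continuousAt]
  intro t
  unfold ContinuousAt
  rw [WithPiTopology.tendsto_iff_coeff_tendsto]
  intro d
  exact (h d).continuousAt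

lemma continuous_coeff' (n : ℕ) : Continuous fun a : A p => coeff n a :=
  WithPiTopology.continuous_coeff (ZMod p) n

lemma continuous_toZMod : Continuous (PadicInt.toZMod : ℤ_[p] → ZMod p) := by
  have h : IsOpen ((PadicInt.toZMod : ℤ_[p] →+* ZMod p) ⁻¹' {0}) := by
    have : (PadicInt.toZMod : ℤ_[p] →+* ZMod p) ⁻¹' {0} = Metric.ball 0 1 := by
      ext x
      have h2 : PadicInt.toZMod x = 0 ↔ x ∈ IsLocalRing.maximalIdeal ℤ_[p] := by
        rw [← PadicInt.ker_toZMod]; rfl
      rw [Set.mem_preimage, Set.mem_singleton_iff, h2, IsLocalRing.mem_maximalIdeal,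
        PadicInt.mem_nonunits, mem_ball_zero_iff]
    rw [this]
    exact Metric.isOpen_ball
  have hc : Continuous (PadicInt.toZMod : ℤ_[p] →+* ZMod p).toAddMonoidHom := by
    apply continuous_of_continuousAt_zero
    have h0 : (PadicInt.toZMod : ℤ_[p] →+* ZMod p).toAddMonoidHom 0 = 0 := map_zero _
    unfold ContinuousAt
    rw [h0, nhds_discrete (ZMod p), tendsto_pure]
    exact h.mem_nhds (by simp)
  exact hc

/-- `(1 + X) ^ z` -/
noncomputable def E (z : ℤ_[p]) : A p := PowerSeries.mk fun n => PadicInt.toZMod (Ring.choose z n)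

@[simp] lemma coeff_E (z : ℤ_[p]) (n : ℕ) : coeff n (E z) = PadicInt.toZMod (Ring.choose z n) :=
  coeff_mk _ _

lemma E_add (z w : ℤ_[p]) : E (z + w) = E z * E w := by
  ext n
  rw [coeff_E, Ring.add_choose_eq n (Commute.all z w), coeff_mul, map_sum]
  simp

@[simp] lemma E_zero : E (0 : ℤ_[p]) = 1 := by
  ext n
  rw [coeff_E, Ring.choose_zero_ite, coeff_one]
  split_ifs <;> simp

lemma E_one : E (1 : ℤ_[p]) = 1 + X := by
  ext n
  have h := Ring.choose_natCast (R := ℤ_[p]) 1 n
  rw [Nat.cast_one] at h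
  rw [coeff_E, map_add, coeff_one, coeff_X, h, map_natCast]
  rcases n with _ | _ | n
  · simp
  · simp
  · rw [Nat.choose_eq_zero_of_lt (by omega)]
    simp

lemma continuous_E : Continuous (E : ℤ_[p] → A p) := by
  apply continuous_of_coeff
  intro n
  simp only [coeff_E]
  exact continuous_toZMod.comp (PadicInt.continuous_choose n)

lemma E_nsmul (n : ℕ) (z : ℤ_[p]) : E (n • z) = E z ^ n := by
  induction n with
  | zero => simp
  | succ n ih => rw [succ_nsmul, E_add, ih, pow_succ]

lemma E_natCast_mul (n : ℕ) (z : ℤ_[p]) : E ((n : ℤ_[p]) * z) = E z ^ n := by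
  rw [← nsmul_eq_mul, E_nsmul]

lemma E_pow_mul (k : ℕ) (z : ℤ_[p]) : E ((p : ℤ_[p]) ^ k * z) = E z ^ (p ^ k) := by
  rw [← Nat.cast_pow, E_natCast_mul]

instance : CharP (A p) p :=
  charP_of_injective_ringHom (f := (C : ZMod p →+* A p)) C_injective p

lemma E_p_pow (k : ℕ) : E ((p : ℤ_[p]) ^ k) = 1 + (X : A p) ^ (p ^ k) := by
  have := E_pow_mul k (1 : ℤ_[p])
  rw [mul_one, E_one] at this
  rw [this, add_pow_char_pow, one_pow]

lemma E_ne_zero (z : ℤ_[p]) : E z ≠ 0 := by
  intro h
  have : E (z + -z) = 0 := by rw [E_add, h, zero_mul]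
  rw [add_neg_cancel, E_zero] at this
  exact one_ne_zero this

lemma E_mul_neg (z : ℤ_[p]) : E z * E (-z) = 1 := by
  rw [← E_add, add_neg_cancel, E_zero]

lemma E_neg_mul (z : ℤ_[p]) : E (-z) * E z = 1 := by
  rw [← E_add, neg_add_cancel, E_zero]

/-- `((1 + X) ^ z - 1) / X` -/
noncomputable def e (z : ℤ_[p]) : A p :=
  PowerSeries.mk fun n => PadicInt.toZMod (Ring.choose z (n + 1))

lemma E_eq (z : ℤ_[p]) : E z = 1 + X * e z := by
  ext n
  rcases n with _ | n
  · simp
  · rw [map_add, coeff_succ_X_mul, e, coeff_mk, coeff_E, coeff_one]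
    simp

lemma e_one : e (1 : ℤ_[p]) = 1 := by
  have h := E_eq (1 : ℤ_[p])
  rw [E_one] at h
  have h2 := add_left_cancel h
  have h3 : (X : A p) * 1 = X * e 1 := by rw [mul_one]; exact h2
  exact (mul_left_cancel₀ X_ne_zero h3).symm

lemma continuous_e : Continuous (e : ℤ_[p] → A p) := by
  apply continuous_of_coeff
  intro n
  simp only [e, coeff_mk]
  exact continuous_toZMod.comp (PadicInt.continuous_choose (n + 1))

/-- the map `z ↦ (1 + X) ^ z` is injective -/
lemma E_eq_one_iff (z : ℤ_[p]) : E z = 1 ↔ z = 0 := by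
  constructor
  · intro h
    by_contra hz
    obtain ⟨u, hu⟩ : ∃ u : ℤ_[p]ˣ, z = u * (p : ℤ_[p]) ^ z.valuation :=
      ⟨PadicInt.unitCoeff hz, PadicInt.unitCoeff_spec hz⟩
    have h1 : E ((p : ℤ_[p]) ^ z.valuation * (u : ℤ_[p])) = 1 := by
      rw [mul_comm, ← hu]; exact h
    rw [E_pow_mul] at h1
    have h2 : (E (u : ℤ_[p]) - 1) ^ (p ^ z.valuation) = 0 := by
      rw [sub_pow_char_pow, h1, one_pow, sub_self]
    have h3 : E (u : ℤ_[p]) - 1 = 0 := eq_zero_of_pow_eq_zero h2
    have h4 := congrArg (coeff 1) h3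
    rw [map_sub, coeff_E, Ring.choose_one_right, coeff_one] at h4
    simp only [one_ne_zero, if_false, sub_zero, map_zero] at h4
    have h5 : IsUnit (PadicInt.toZMod (u : ℤ_[p])) := u.isUnit.map _
    rw [h4] at h5
    exact not_isUnit_zero h5
  · rintro rfl
    exact E_zero

end Pool.Agent.H435R3.Lamp
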