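import Mathlib
import Pool.Agent.H435R3.Lamp.Basic

set_option autoImplicit false
set_option linter.unusedSectionVars false

/-!
# The groups `M ⋊ ℤ_[p]`, where `z` acts as multiplication by `(1 + X) ^ z`
-/

noncomputable section

namespace Pool.Agent.H435R3.Lamp

open PowerSeries Filter Topology
open scoped PowerSeries.WithPiTopology

/-- pairs -/
@[ext]
structure G (p : ℕ) [hp : Fact p.Prime] (M : Type) where
  a : M
  z : ℤ_[p]

namespace G

variable {p : ℕ} [hp : Fact p.Prime]
variable {M : Type} [AddCommGroup M] [Module (A p) M] [TopologicalSpace M]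
  [IsTopologicalAddGroup M] [ContinuousSMul (A p) M]

noncomputable instance : Mul (G p M) := ⟨fun x y => ⟨x.a + E x.z • y.a, x.z + y.z⟩⟩
noncomputable instance : One (G p M) := ⟨⟨0, 0⟩⟩
noncomputable instance : Inv (G p M) := ⟨fun x => ⟨- (E (-x.z) • x.a), -x.z⟩⟩

@[simp] lemma mul_a (x y : G p M) : (x * y).a = x.a + E x.z • y.a := rfl
@[simp] lemma mul_z (x y : G p M) : (x * y).z = x.z + y.z := rfl
@[simp] lemma one_a : (1 : G p M).a = 0 := rfl
@[simp] lemma one_z : (1 : G p M).z = 0 := rfl
@[simp] lemma inv_a (x : G p M) : (x⁻¹).a = - (E (-x.z) • x.a) := rfl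
@[simp] lemma inv_z (x : G p M) : (x⁻¹).z = - x.z := rfl

noncomputable instance : Group (G p M) := Group.ofLeftAxioms
  (by
    intro x y w
    ext
    · simp [E_add, mul_smul, add_assoc]
    · simp [add_assoc])
  (by intro x; ext <;> simp)
  (by intro x; ext <;> simp)

/-- underlying pair -/
def toProd : G p M ≃ M × ℤ_[p] where
  toFun x := (x.a, x.z)
  invFun x := ⟨x.1, x.2⟩
  left_inv _ := rfl
  right_inv _ := rfl

instance : TopologicalSpace (G p M) := TopologicalSpace.induced toProd inferInstance

/-- homeomorphism with the product -/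
def homeo : G p M ≃ₜ M × ℤ_[p] where
  toEquiv := toProd
  continuous_toFun := continuous_induced_dom
  continuous_invFun := by
    rw [continuous_induced_rng]
    exact continuous_id

lemma continuous_a : Continuous fun x : G p M => x.a := continuous_fst.comp homeo.continuous
lemma continuous_z : Continuous fun x : G p M => x.z := continuous_snd.comp homeo.continuous

lemma continuous_mk' {T : Type} [TopologicalSpace T] {f : T → M} {g : T → ℤ_[p]}
    (hf : Continuous f) (hg : Continuous g) : Continuous fun t => (⟨f t, g t⟩ : G p M) :=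
  homeo.symm.continuous.comp (hf.prodMk hg)

instance [CompactSpace M] : CompactSpace (G p M) := homeo.symm.compactSpace
instance [T2Space M] : T2Space (G p M) := homeo.symm.t2Space
instance [TotallyDisconnectedSpace M] : TotallyDisconnectedSpace (G p M) :=
  homeo.symm.totallyDisconnectedSpace

instance : IsTopologicalGroup (G p M) where
  continuous_mul := by
    apply continuous_mk'
    · exact (continuous_a.comp continuous_fst).add
        ((continuous_E.comp (continuous_z.comp continuous_fst)).smul
          (continuous_a.comp continuous_snd))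
    · exact (continuous_z.comp continuous_fst).add (continuous_z.comp continuous_snd)
  continuous_inv := by
    apply continuous_mk'
    · exact ((continuous_E.comp continuous_z.neg).smul continuous_a).neg
    · exact continuous_z.neg

/-- the inclusion of `M` -/
noncomputable def inl : Multiplicative M →* G p M where
  toFun m := ⟨m.toAdd, 0⟩
  map_one' := rfl
  map_mul' := by intro x y; ext <;> simp

/-- the inclusion of `ℤ_[p]` -/
noncomputable def inr : Multiplicative ℤ_[p] →* G p M where
  toFun m := ⟨0, m.toAdd⟩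
  map_one' := rfl
  map_mul' := by intro x y; ext <;> simp

/-- the projection -/
noncomputable def pr : G p M →* Multiplicative ℤ_[p] where
  toFun x := Multiplicative.ofAdd x.z
  map_one' := rfl
  map_mul' := by intro x y; rfl

lemma commutator_eq (x : G p M) (b : M) :
    (⟨b, 0⟩ : G p M) * x * (⟨b, 0⟩ : G p M)⁻¹ * x⁻¹ = ⟨b - E x.z • b, 0⟩ := by
  ext
  · simp [smul_smul, E_mul_neg, sub_eq_add_neg, add_assoc]
  · simp

lemma mul_inv_same (a b : M) (z : ℤ_[p]) : (⟨a, z⟩ : G p M) * (⟨b, z⟩ : G p M)⁻¹ = ⟨a - b, 0⟩ := by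
  ext
  · simp [smul_smul, E_mul_neg, sub_eq_add_neg]
  · simp

end G

/-- Self-similarity of index `p`: there is a virtual endomorphism on a closed subgroup of index `p`
with trivial core. -/
def SS (p : ℕ) (L : Type) [Group L] [TopologicalSpace L] : Prop :=
  ∃ H : Subgroup L, IsClosed (H : Set L) ∧ H.index = p ∧ ∃ f : H →* L, Continuous f ∧
    ∀ K : Subgroup L, ∀ hKH : K ≤ H, K.Normal → (∀ k : L, ∀ hk : k ∈ K, f ⟨k, hKH hk⟩ ∈ K) →
      K = ⊥

/-- transfer along an embedding -/
lemma SS.transfer {p : ℕ} {L₁ G₁ : Type} [Group L₁] [TopologicalSpace L₁] [CompactSpace L₁]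
    [Group G₁] [TopologicalSpace G₁] [T2Space G₁] (h : SS p L₁) (Ψ : L₁ →* G₁)
    (hΨ : Continuous Ψ) (hinj : Function.Injective Ψ) (L : Subgroup G₁) (hL : Ψ.range = L) :
    ∃ H : Subgroup G₁, H ≤ L ∧ IsClosed (H : Set G₁) ∧ (H.subgroupOf L).index = p ∧
        ∃ f : H →* G₁, Continuous f ∧ (∀ h : H, f h ∈ L) ∧
          ∀ K : Subgroup G₁, ∀ hKH : K ≤ H,
            (∀ l ∈ L, ∀ k ∈ K, l * k * l⁻¹ ∈ K) →
            (∀ k : G₁, ∀ hk : k ∈ K, f ⟨k, hKH hk⟩ ∈ K) → K = ⊥ := by
  obtain ⟨H, hHc, hHi, f, hf, hcore⟩ := h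
  subst hL
  haveI : CompactSpace H := isCompact_iff_compactSpace.1 hHc.isCompact
  let e : H ≃* H.map Ψ := H.equivMapOfInjective Ψ hinj
  have he : ∀ x : H, (e x : G₁) = Ψ x := fun x => Subgroup.coe_equivMapOfInjective_apply _ _ _ _
  have hec : Continuous e := by
    apply Continuous.subtype_mk
    exact hΨ.comp continuous_subtype_val
  have hei : Continuous e.symm := by
    have := hec.continuous_symm_of_equiv_compact_to_t2 (f := e.toEquiv)
    exact this
  refine ⟨H.map Ψ, ?_, ?_, ?_, Ψ.comp (f.comp e.symm.toMonoidHom), ?_, ?_, ?_⟩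
  · rw [MonoidHom.range_eq_map]
    exact Subgroup.map_mono le_top
  · have : ((H.map Ψ : Subgroup G₁) : Set G₁) = Ψ '' (H : Set L₁) := rfl
    rw [this]
    exact (hHc.isCompact.image hΨ).isClosed
  · show (H.map Ψ).relIndex Ψ.range = p
    rw [MonoidHom.range_eq_map, Subgroup.relIndex_map_map_of_injective _ _ hinj,
      Subgroup.relIndex_top_right, hHi]
  · exact hΨ.comp (hf.comp hei)
  · intro h
    exact ⟨_, rfl⟩
  · intro K hKH hn hinv
    have h1 : K.comap Ψ ≤ H := by
      intro x hx
      obtain ⟨y, hy, hyx⟩ := hKH hx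
      rwa [← hinj hyx]
    have h2 : K.comap Ψ = ⊥ := by
      apply hcore _ h1
      · constructor
        intro k hk g
        have := hn (Ψ g) ⟨g, rfl⟩ (Ψ k) hk
        rw [← map_inv, ← map_mul, ← map_mul] at this
        exact this
      · intro k hk
        have h3 := hinv (Ψ k) hk
        have h4 : e.symm ⟨Ψ k, hKH hk⟩ = ⟨k, h1 hk⟩ := by
          rw [MulEquiv.symm_apply_eq]
          apply Subtype.ext
          rw [he]
        show Ψ (f ⟨k, h1 hk⟩) ∈ K
        rw [← h4]
        exact h3
    rw [eq_bot_iff]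
    intro x hx
    obtain ⟨y, hy, rfl⟩ := hKH hx
    have h3 : y ∈ K.comap Ψ := hx
    rw [h2, Subgroup.mem_bot] at h3
    rw [h3, map_one]
    exact Subgroup.one_mem _

end Pool.Agent.H435R3.Lamp
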