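import Mathlib
import Pool.Agent.H435R3.Lamp.Group

set_option autoImplicit false
set_option linter.unusedSectionVars false

/-!
# Self-similarity of the model groups
-/

noncomputable section

namespace Pool.Agent.H435R3.Lamp

open PowerSeries Filter Topology
open scoped PowerSeries.WithPiTopology

variable {p : ℕ} [hp : Fact p.Prime]

/-- drop the constant coefficient and divide by `X` -/
def dX (a : A p) : A p := PowerSeries.mk fun n => coeff (n + 1) a

@[simp] lemma coeff_dX (a : A p) (n : ℕ) : coeff n (dX a) = coeff (n + 1) a := coeff_mk _ _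

lemma dX_add (a b : A p) : dX (a + b) = dX a + dX b := by
  ext n; simp

lemma eq_X_mul_dX (a : A p) (h : constantCoeff a = 0) : a = X * dX a := by
  ext n
  rcases n with _ | n
  · simpa using h
  · rw [coeff_succ_X_mul, coeff_dX]

lemma dX_mul (u a : A p) (h : constantCoeff a = 0) : dX (u * a) = u * dX a := by
  have h1 : X * dX (u * a) = X * (u * dX a) := by
    rw [← eq_X_mul_dX]
    · conv_lhs => rw [eq_X_mul_dX a h]
      ring
    · rw [map_mul, h, mul_zero]
  exact mul_left_cancel₀ X_ne_zero h1

lemma continuous_dX : Continuous (dX : A p → A p) := by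
  apply continuous_of_coeff
  intro n
  simp only [coeff_dX]
  exact continuous_coeff' (n + 1)

/-- The shift on vectors. -/
def shift {r : ℕ} (f : Fin (r + 1) → A p) : Fin (r + 1) → A p :=
  Fin.snoc (α := fun _ => A p) (Fin.tail f) (dX (f 0))

lemma shift_castSucc {r : ℕ} (f : Fin (r + 1) → A p) (i : Fin r) :
    shift f i.castSucc = f i.succ := by
  unfold shift
  rw [Fin.snoc_castSucc]
  rfl

lemma shift_last {r : ℕ} (f : Fin (r + 1) → A p) : shift f (Fin.last r) = dX (f 0) := by
  unfold shift
  rw [Fin.snoc_last]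

lemma shift_add {r : ℕ} (f g : Fin (r + 1) → A p) : shift (f + g) = shift f + shift g := by
  ext1 i
  refine Fin.lastCases ?_ (fun i => ?_) i
  · rw [Pi.add_apply, shift_last, shift_last, shift_last, Pi.add_apply, dX_add]
  · rw [Pi.add_apply, shift_castSucc, shift_castSucc, shift_castSucc, Pi.add_apply]

lemma shift_smul {r : ℕ} (u : A p) (f : Fin (r + 1) → A p) (h : constantCoeff (f 0) = 0) :
    shift (u • f) = u • shift f := by
  ext1 i
  refine Fin.lastCases ?_ (fun i => ?_) i
  · rw [Pi.smul_apply, shift_last, shift_last, Pi.smul_apply, smul_eq_mul, smul_eq_mul,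
      dX_mul _ _ h]
  · rw [Pi.smul_apply, shift_castSucc, shift_castSucc, Pi.smul_apply]

lemma continuous_shift {r : ℕ} : Continuous (shift : (Fin (r + 1) → A p) → _) := by
  rw [continuous_pi_iff]
  intro i
  refine Fin.lastCases ?_ (fun i => ?_) i
  · simp only [shift_last]
    exact continuous_dX.comp (continuous_apply 0)
  · simp only [shift_castSucc]
    exact continuous_apply _

/-- the character -/
def chi (r : ℕ) : G p (Fin (r + 1) → A p) →* Multiplicative (ZMod p) where
  toFun x := Multiplicative.ofAdd (constantCoeff (x.a 0))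
  map_one' := by simp
  map_mul' := by
    intro x y
    rw [← ofAdd_add]
    congr 1
    rw [G.mul_a, Pi.add_apply, Pi.smul_apply, smul_eq_mul, map_add, map_mul]
    congr 1
    have : constantCoeff (E x.z) = 1 := by
      rw [E_eq, map_add, map_mul]
      simp
    rw [this, one_mul]

lemma mem_ker_chi {r : ℕ} (x : G p (Fin (r + 1) → A p)) :
    x ∈ (chi r).ker ↔ constantCoeff (x.a 0) = 0 := by
  rw [MonoidHom.mem_ker]
  exact Iff.rfl

lemma constantCoeff_E (z : ℤ_[p]) : constantCoeff (E z) = 1 := by
  rw [E_eq, map_add, map_mul]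
  simp

/-- the virtual endomorphism -/
def vend (r : ℕ) : (chi (p := p) r).ker →* G p (Fin (r + 1) → A p) where
  toFun x := ⟨shift x.1.a, x.1.z⟩
  map_one' := by
    ext1
    · show shift 0 = 0
      ext1 i
      refine Fin.lastCases ?_ (fun i => ?_) i
      · rw [shift_last]
        ext n
        simp
      · rw [shift_castSucc]
        rfl
    · rfl
  map_mul' := by
    intro x y
    ext1
    · show shift (x.1.a + E x.1.z • y.1.a) = shift x.1.a + E x.1.z • shift y.1.a
      rw [shift_add, shift_smul]
      exact (mem_ker_chi _).1 y.2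
    · rfl

lemma ss_model (r : ℕ) : SS p (G p (Fin (r + 1) → A p)) := by
  refine ⟨(chi r).ker, ?_, ?_, vend r, ?_, ?_⟩
  · have : ((chi (p := p) r).ker : Set (G p (Fin (r + 1) → A p))) =
        (fun x => coeff 0 (x.a 0)) ⁻¹' {0} := by
      ext x
      rw [SetLike.mem_coe, mem_ker_chi]
      simp
    rw [this]
    have hc : Continuous fun x : G p (Fin (r + 1) → A p) => coeff 0 (x.a 0) :=
      (continuous_coeff' (p := p) 0).comp ((continuous_apply (0 : Fin (r + 1))).comp G.continuous_a)
    exact isClosed_singleton.preimage hc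
  · rw [Subgroup.index_ker]
    have hs : (chi (p := p) r).range = ⊤ := by
      rw [MonoidHom.range_eq_top]
      intro c
      refine ⟨⟨fun _ => C c.toAdd, 0⟩, ?_⟩
      show Multiplicative.ofAdd (constantCoeff (C c.toAdd)) = c
      rw [constantCoeff_C]
      rfl
    rw [hs, Subgroup.card_top]
    show Nat.card (ZMod p) = p
    exact Nat.card_zmod p
  · apply G.continuous_mk'
    · exact continuous_shift.comp (G.continuous_a.comp continuous_subtype_val)
    · exact G.continuous_z.comp continuous_subtype_val
  · intro K hKH hn hinv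
    have h0 : ∀ a : Fin (r + 1) → A p, (⟨a, 0⟩ : G p _) ∈ K → constantCoeff (a 0) = 0 :=
      fun a ha => (mem_ker_chi _).1 (hKH ha)
    have h1 : ∀ a : Fin (r + 1) → A p, (⟨a, 0⟩ : G p _) ∈ K → (⟨shift a, 0⟩ : G p _) ∈ K :=
      fun a ha => hinv _ ha
    have h2 : ∀ n : ℕ, ∀ i : ℕ, ∀ hi : i < r + 1, ∀ a : Fin (r + 1) → A p,
        (⟨a, 0⟩ : G p _) ∈ K → coeff n (a ⟨i, hi⟩) = 0 := by
      intro n
      induction n with
      | zero =>
        intro i
        induction i with
        | zero =>
          intro hi a ha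
          have := h0 a ha
          simpa using this
        | succ i ih =>
          intro hi a ha
          have := ih (by omega) _ (h1 a ha)
          have h3 : shift a ⟨i, by omega⟩ = a ⟨i + 1, hi⟩ := shift_castSucc a ⟨i, by omega⟩
          rwa [h3] at this
      | succ n ihn =>
        intro i
        induction i with
        | zero =>
          intro hi a ha
          have := ihn r (by omega) _ (h1 a ha)
          have h3 : shift a ⟨r, by omega⟩ = dX (a 0) := shift_last a
          rw [h3, coeff_dX] at this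
          exact this
        | succ i ih =>
          intro hi a ha
          have := ih (by omega) _ (h1 a ha)
          have h3 : shift a ⟨i, by omega⟩ = a ⟨i + 1, hi⟩ := shift_castSucc a ⟨i, by omega⟩
          rwa [h3] at this
    have h3 : ∀ a : Fin (r + 1) → A p, (⟨a, 0⟩ : G p _) ∈ K → a = 0 := by
      intro a ha
      ext i n
      exact h2 n i.1 i.2 a ha
    rw [eq_bot_iff]
    intro x hx
    rw [Subgroup.mem_bot]
    have hz : x.z = 0 := by
      rw [← E_eq_one_iff]
      have h4 : (⟨(fun _ => 1) - E x.z • (fun _ => 1), 0⟩ : G p (Fin (r + 1) → A p)) ∈ K := by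
        rw [← G.commutator_eq]
        exact K.mul_mem (hn.conj_mem x hx _) (K.inv_mem hx)
      have h5 := congrFun (h3 _ h4) 0
      rw [Pi.sub_apply, Pi.smul_apply, smul_eq_mul, mul_one, Pi.zero_apply, sub_eq_zero] at h5
      exact h5.symm
    have hx' : x = ⟨x.a, 0⟩ := by ext1 <;> [rfl; exact hz]
    have ha := h3 x.a (by rw [← hx']; exact hx)
    ext1
    · exact ha
    · exact hz

/-- multiplication by `p` on `ℤ_[p]`, onto its image. -/
def mulP : Multiplicative ℤ_[p] →* Multiplicative ℤ_[p] where
  toFun x := Multiplicative.ofAdd ((p : ℤ_[p]) * x.toAdd)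
  map_one' := by simp
  map_mul' := by
    intro x y
    exact congrArg Multiplicative.ofAdd (mul_add (p : ℤ_[p]) x.toAdd y.toAdd)

lemma p_ne_zero' : (p : ℤ_[p]) ≠ 0 := by
  exact_mod_cast hp.out.ne_zero

lemma mulP_injective : Function.Injective (mulP (p := p)) := by
  intro x y h
  have h2 : (p : ℤ_[p]) * x.toAdd = (p : ℤ_[p]) * y.toAdd := h
  exact Multiplicative.toAdd.injective (mul_left_cancel₀ p_ne_zero' h2)

/-- reduction modulo `p` -/
def red : Multiplicative ℤ_[p] →* Multiplicative (ZMod p) :=
  AddMonoidHom.toMultiplicative (PadicInt.toZMod : ℤ_[p] →+* ZMod p).toAddMonoidHom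

lemma range_mulP : (mulP (p := p)).range = red.ker := by
  ext x
  rw [MonoidHom.mem_ker]
  have h1 : red x = 1 ↔ (PadicInt.toZMod : ℤ_[p] →+* ZMod p) x.toAdd = 0 := Iff.rfl
  rw [h1, ← RingHom.mem_ker, PadicInt.ker_toZMod, PadicInt.maximalIdeal_eq_span_p,
    Ideal.mem_span_singleton]
  constructor
  · rintro ⟨y, rfl⟩
    exact ⟨y.toAdd, rfl⟩
  · rintro ⟨y, hy⟩
    exact ⟨Multiplicative.ofAdd y, congrArg Multiplicative.ofAdd hy.symm⟩

instance : CompactSpace (Multiplicative ℤ_[p]) := inferInstanceAs (CompactSpace ℤ_[p])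
instance : T2Space (Multiplicative ℤ_[p]) := inferInstanceAs (T2Space ℤ_[p])

lemma continuous_mulP : Continuous (mulP (p := p)) := by
  show Continuous fun x : ℤ_[p] => (p : ℤ_[p]) * x
  exact continuous_const.mul continuous_id

lemma ss_Zp : SS p (Multiplicative ℤ_[p]) := by
  let e : Multiplicative ℤ_[p] ≃* (mulP (p := p)).range := MonoidHom.ofInjective mulP_injective
  have hec : Continuous e := Continuous.subtype_mk continuous_mulP _
  have hei : Continuous e.symm := hec.continuous_symm_of_equiv_compact_to_t2 (f := e.toEquiv)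
  refine ⟨(mulP (p := p)).range, ?_, ?_, e.symm.toMonoidHom, hei, ?_⟩
  · have : ((mulP (p := p)).range : Set (Multiplicative ℤ_[p])) = Set.range mulP := rfl
    rw [this]
    exact (isCompact_range continuous_mulP).isClosed
  · rw [range_mulP, Subgroup.index_ker]
    have hs : (red (p := p)).range = ⊤ := by
      rw [MonoidHom.range_eq_top]
      intro c
      obtain ⟨y, hy⟩ := ZMod.ringHom_surjective (PadicInt.toZMod : ℤ_[p] →+* ZMod p) c.toAdd
      exact ⟨Multiplicative.ofAdd y, congrArg Multiplicative.ofAdd hy⟩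
    rw [hs, Subgroup.card_top]
    show Nat.card (ZMod p) = p
    exact Nat.card_zmod p
  · intro K hKH hn hinv
    have h1 : ∀ n : ℕ, ∀ x ∈ K, (p : ℤ_[p]) ^ n ∣ x.toAdd := by
      intro n
      induction n with
      | zero => intro x _; simp
      | succ n ih =>
        intro x hx
        have h2 := hinv x hx
        obtain ⟨y, hy⟩ := hKH hx
        have h3 : e.symm ⟨x, hKH hx⟩ = y := by
          rw [MulEquiv.symm_apply_eq]
          apply Subtype.ext
          exact hy.symm
        have h4 : y ∈ K := by
          rw [← h3]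
          exact h2
        obtain ⟨c, hc⟩ := ih y h4
        refine ⟨c, ?_⟩
        have h5 : x.toAdd = (p : ℤ_[p]) * y.toAdd := by rw [← hy]; rfl
        rw [h5, hc]
        ring
    rw [eq_bot_iff]
    intro x hx
    rw [Subgroup.mem_bot]
    by_contra hne
    have hne' : x.toAdd ≠ 0 := hne
    have h2 := h1 (x.toAdd.valuation + 1) x hx
    rw [← Ideal.mem_span_singleton, PadicInt.mem_span_pow_iff_le_valuation _ hne'] at h2
    omega

/-- the shift -/
def fshift {r : ℕ} (f : Fin (r + 1) → ZMod p) : Fin (r + 1) → ZMod p :=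
  Fin.snoc (α := fun _ => ZMod p) (Fin.tail f) 0

lemma fshift_castSucc {r : ℕ} (f : Fin (r + 1) → ZMod p) (i : Fin r) :
    fshift f i.castSucc = f i.succ := by
  unfold fshift
  rw [Fin.snoc_castSucc]
  rfl

lemma fshift_last {r : ℕ} (f : Fin (r + 1) → ZMod p) : fshift f (Fin.last r) = 0 := by
  unfold fshift
  rw [Fin.snoc_last]

/-- the coordinate -/
def coord0 (r : ℕ) : Multiplicative (Fin (r + 1) → ZMod p) →* Multiplicative (ZMod p) where
  toFun x := Multiplicative.ofAdd (x.toAdd 0)
  map_one' := rfl
  map_mul' := by intro x y; rfl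

/-- the virtual endomorphism -/
def fvend (r : ℕ) : (coord0 (p := p) r).ker →* Multiplicative (Fin (r + 1) → ZMod p) where
  toFun x := Multiplicative.ofAdd (fshift x.1.toAdd)
  map_one' := by
    show fshift 0 = 0
    ext1 i
    refine Fin.lastCases ?_ (fun i => ?_) i
    · rw [fshift_last]; rfl
    · rw [fshift_castSucc]; rfl
  map_mul' := by
    intro x y
    show fshift (x.1.toAdd + y.1.toAdd) = fshift x.1.toAdd + fshift y.1.toAdd
    ext1 i
    refine Fin.lastCases ?_ (fun i => ?_) i
    · rw [Pi.add_apply, fshift_last, fshift_last, fshift_last, add_zero]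
    · rw [Pi.add_apply, fshift_castSucc, fshift_castSucc, fshift_castSucc]
      rfl

instance (r : ℕ) : DiscreteTopology (Multiplicative (Fin r → ZMod p)) :=
  inferInstanceAs (DiscreteTopology (Fin r → ZMod p))

lemma ss_finite (r : ℕ) : SS p (Multiplicative (Fin (r + 1) → ZMod p)) := by
  refine ⟨(coord0 r).ker, isClosed_discrete _, ?_, fvend r, continuous_of_discreteTopology, ?_⟩
  · rw [Subgroup.index_ker]
    have hs : (coord0 (p := p) r).range = ⊤ := by
      rw [MonoidHom.range_eq_top]
      intro c
      exact ⟨Multiplicative.ofAdd (fun _ => c.toAdd), rfl⟩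
    rw [hs, Subgroup.card_top]
    show Nat.card (ZMod p) = p
    exact Nat.card_zmod p
  · intro K hKH hn hinv
    have h1 : ∀ i : ℕ, ∀ hi : i < r + 1, ∀ a ∈ K, a.toAdd ⟨i, hi⟩ = 0 := by
      intro i
      induction i with
      | zero =>
        intro hi a ha
        exact MonoidHom.mem_ker.1 (hKH ha)
      | succ i ih =>
        intro hi a ha
        have h2 := ih (by omega) _ (hinv a ha)
        have h3 : fshift a.toAdd ⟨i, by omega⟩ = a.toAdd ⟨i + 1, hi⟩ :=
          fshift_castSucc a.toAdd ⟨i, by omega⟩
        rw [← h3]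
        exact h2
    rw [eq_bot_iff]
    intro x hx
    rw [Subgroup.mem_bot]
    show x.toAdd = 0
    ext1 i
    exact h1 i.1 i.2 x hx

end Pool.Agent.H435R3.Lamp
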