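import Mathlib
import Pool.Agent.H435R3.Lamp.Basic

set_option autoImplicit false
set_option linter.unusedSectionVars false

/-!
# Power series as a module over themselves through a power of Frobenius
-/

noncomputable section

namespace Pool.Agent.H435R3.Lamp

open PowerSeries Filter Topology
open scoped PowerSeries.WithPiTopology

variable {p : ℕ} [hp : Fact p.Prime]

lemma pow_eq_expand (k : ℕ) (f : A p) :
    f ^ (p ^ k) = PowerSeries.expand (p ^ k) (pow_ne_zero k hp.out.ne_zero) f := by
  have h := MvPowerSeries.map_iterateFrobenius_expand p hp.out.ne_zero f k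
  have h2 : iterateFrobenius (ZMod p) p k = RingHom.id _ := by
    ext x
    rw [iterateFrobenius_def, ZMod.pow_card_pow, RingHom.id_apply]
  rw [h2, MvPowerSeries.map_id] at h
  exact h.symm

variable (p) in
/-- The ring of power series, seen as a module over itself through the `k`-th power of
Frobenius. -/
def Tw (_k : ℕ) : Type := A p

instance (k : ℕ) : AddCommGroup (Tw p k) := inferInstanceAs (AddCommGroup (A p))
instance (k : ℕ) : Module (A p) (Tw p k) :=
  Module.compHom (A p) (iterateFrobenius (A p) p k)

lemma Tw_smul_def (k : ℕ) (f : A p) (a : Tw p k) :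
    (f • a : Tw p k) = (f ^ (p ^ k) * (show A p from a) : A p) := by
  show iterateFrobenius (A p) p k f • (show A p from a) = _
  rw [iterateFrobenius_def, smul_eq_mul]

lemma Tw_span (k : ℕ) (a : A p) :
    a = ∑ j ∈ Finset.range (p ^ k),
      (PowerSeries.mk fun n => coeff (p ^ k * n + j) a) ^ (p ^ k) * X ^ j := by
  have hq : 0 < p ^ k := pow_pos hp.out.pos k
  ext m
  rw [map_sum]
  rw [Finset.sum_eq_single (m % (p ^ k))]
  · rw [coeff_mul_X_pow', if_pos (Nat.mod_le _ _), pow_eq_expand, coeff_expand, if_pos]
    · rw [coeff_mk]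
      congr 1
      congr 1
      have h1 := Nat.div_add_mod m (p ^ k)
      have h2 : (m - m % p ^ k) / p ^ k = m / p ^ k := by
        have h3 : m - m % p ^ k = p ^ k * (m / p ^ k) := by omega
        rw [h3, Nat.mul_div_cancel_left _ hq]
      rw [h2]
      exact h1.symm
    · exact (Nat.dvd_sub_mod m)
  · intro j hj hne
    rw [Finset.mem_range] at hj
    rw [coeff_mul_X_pow']
    split_ifs with h
    · rw [pow_eq_expand, coeff_expand, if_neg]
      intro hd
      apply hne
      have : m ≡ j [MOD p ^ k] := ((Nat.modEq_iff_dvd' h).2 hd).symm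
      rw [this, Nat.mod_eq_of_lt hj]
    · rfl
  · intro h
    exact absurd (Finset.mem_range.2 (Nat.mod_lt _ hq)) h

open Classical in
instance (k : ℕ) : Module.Finite (A p) (Tw p k) := by
  constructor
  refine ⟨(Finset.range (p ^ k)).image (fun j => (show Tw p k from (X ^ j : A p))), ?_⟩
  rw [eq_top_iff]
  intro a _
  have h : a = ∑ j ∈ Finset.range (p ^ k),
      (PowerSeries.mk fun n => coeff (p ^ k * n + j) (show A p from a)) •
        (show Tw p k from (X ^ j : A p)) := Tw_span k a
  rw [h]
  apply Submodule.sum_mem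
  intro j hj
  apply Submodule.smul_mem
  apply Submodule.subset_span
  rw [Finset.coe_image]
  exact ⟨j, hj, rfl⟩

instance (k : ℕ) : Module.IsTorsionFree (A p) (Tw p k) := by
  constructor
  intro f hf a b hab
  have hf0 : f ≠ 0 := hf.ne_zero
  have key : ∀ a' b' : A p, f ^ (p ^ k) * a' = f ^ (p ^ k) * b' → a' = b' :=
    fun a' b' h => mul_left_cancel₀ (pow_ne_zero _ hf0) h
  exact key a b hab

lemma exists_basis (k : ℕ) (N : Submodule (A p) (Tw p k)) :
    ∃ n : ℕ, Nonempty (Module.Basis (Fin n) (A p) N) := by
  have h := Module.basisOfFiniteTypeTorsionFree' (R := A p) (M := Tw p k)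
  exact Submodule.nonempty_basis_of_pid h.2 N

end Pool.Agent.H435R3.Lamp
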