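import Mathlib
import Pool.Agent.H435R3.Lamp.Models
import Pool.Agent.H435R3.Lamp.Twist

set_option autoImplicit false
set_option linter.unusedSectionVars false

/-!
# Closed subgroups of the pro-`p` lamplighter group
-/

noncomputable section

namespace Pool.Agent.H435R3.Lamp

open PowerSeries Filter Topology
open scoped PowerSeries.WithPiTopology

variable {p : ℕ} [hp : Fact p.Prime]

lemma e_zero : e (0 : ℤ_[p]) = 0 := by
  have h := E_eq (0 : ℤ_[p])
  rw [E_zero] at h
  have h2 : (X : A p) * e 0 = 0 := by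
    have : (1 : A p) + X * e 0 = 1 + 0 := by rw [← h, add_zero]
    exact add_left_cancel this
  exact (mul_eq_zero.1 h2).resolve_left X_ne_zero

lemma e_add (z w : ℤ_[p]) : e (z + w) = e z + E z * e w := by
  have h := E_add z w
  have h2 : (X : A p) * e (z + w) = X * (e z + E z * e w) := by
    rw [E_eq (z + w), E_eq w] at h
    have h3 := E_eq z
    linear_combination h + h3
  exact mul_left_cancel₀ X_ne_zero h2

/-- the embedding of the model -/
def Psi (k : ℕ) (a₀ : A p) (r : ℕ) (m : Fin r → A p) : G p (Fin r → A p) →* G p (A p) where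
  toFun x := ⟨(∑ i, x.a i ^ (p ^ k) * m i) + a₀ * e x.z ^ (p ^ k), (p : ℤ_[p]) ^ k * x.z⟩
  map_one' := by
    have hq : p ^ k ≠ 0 := pow_ne_zero _ hp.out.ne_zero
    ext1
    · show (∑ i, (0 : A p) ^ (p ^ k) * m i) + a₀ * e 0 ^ (p ^ k) = 0
      rw [e_zero, zero_pow hq]
      simp
    · show (p : ℤ_[p]) ^ k * 0 = 0
      rw [mul_zero]
  map_mul' := by
    intro x y
    ext1
    · show (∑ i, (x.a i + E x.z * y.a i) ^ (p ^ k) * m i) + a₀ * e (x.z + y.z) ^ (p ^ k) =
        ((∑ i, x.a i ^ (p ^ k) * m i) + a₀ * e x.z ^ (p ^ k)) +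
          E ((p : ℤ_[p]) ^ k * x.z) * ((∑ i, y.a i ^ (p ^ k) * m i) + a₀ * e y.z ^ (p ^ k))
      rw [E_pow_mul, e_add, add_pow_char_pow, mul_pow]
      have : ∀ i, (x.a i + E x.z * y.a i) ^ (p ^ k) * m i =
          x.a i ^ (p ^ k) * m i + E x.z ^ (p ^ k) * (y.a i ^ (p ^ k) * m i) := by
        intro i
        rw [add_pow_char_pow, mul_pow]
        ring
      simp only [this]
      rw [Finset.sum_add_distrib, ← Finset.mul_sum]
      ring
    · show (p : ℤ_[p]) ^ k * (x.z + y.z) = (p : ℤ_[p]) ^ k * x.z + (p : ℤ_[p]) ^ k * y.z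
      ring

lemma continuous_Psi (k : ℕ) (a₀ : A p) (r : ℕ) (m : Fin r → A p) :
    Continuous (Psi k a₀ r m) := by
  apply G.continuous_mk'
  · apply Continuous.add
    · apply continuous_finsetSum
      intro i _
      exact ((((continuous_apply i).comp G.continuous_a)).pow _).mul continuous_const
    · exact continuous_const.mul ((continuous_e.comp G.continuous_z).pow _)
  · exact continuous_const.mul G.continuous_z

/-- the embedding of `ℤ_[p]` -/
def psi (k : ℕ) (a₀ : A p) : Multiplicative ℤ_[p] →* G p (A p) :=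
  (Psi k a₀ 0 Fin.elim0).comp G.inr

lemma psi_apply (k : ℕ) (a₀ : A p) (w : Multiplicative ℤ_[p]) :
    psi k a₀ w = ⟨a₀ * e w.toAdd ^ (p ^ k), (p : ℤ_[p]) ^ k * w.toAdd⟩ := by
  ext1
  · show (∑ i : Fin 0, _) + a₀ * e w.toAdd ^ (p ^ k) = _
    simp
  · rfl

lemma continuous_psi (k : ℕ) (a₀ : A p) : Continuous (psi k a₀) := by
  have : ⇑(psi k a₀) = fun w => ⟨a₀ * e w.toAdd ^ (p ^ k), (p : ℤ_[p]) ^ k * w.toAdd⟩ := by
    funext w
    exact psi_apply k a₀ w
  rw [this]
  have h1 : Continuous fun w : Multiplicative ℤ_[p] => w.toAdd := continuous_id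
  apply G.continuous_mk'
  · exact continuous_const.mul ((continuous_e.comp h1).pow _)
  · exact continuous_const.mul h1

lemma psi_mem (k : ℕ) (a₀ : A p) (L : Subgroup (G p (A p))) (hL : IsClosed (L : Set (G p (A p))))
    (h : (⟨a₀, (p : ℤ_[p]) ^ k⟩ : G p (A p)) ∈ L) (w : Multiplicative ℤ_[p]) : psi k a₀ w ∈ L := by
  have h1 : IsClosed {w : ℤ_[p] | psi k a₀ (Multiplicative.ofAdd w) ∈ L} :=
    hL.preimage (continuous_psi k a₀)
  have h2 : ∀ n : ℕ, (n : ℤ_[p]) ∈ {w : ℤ_[p] | psi k a₀ (Multiplicative.ofAdd w) ∈ L} := by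
    intro n
    show psi k a₀ (Multiplicative.ofAdd (n : ℤ_[p])) ∈ L
    have h3 : Multiplicative.ofAdd (n : ℤ_[p]) = (Multiplicative.ofAdd (1 : ℤ_[p])) ^ n := by
      rw [← ofAdd_nsmul, nsmul_eq_mul, mul_one]
    rw [h3, map_pow]
    apply L.pow_mem
    rw [psi_apply]
    have h4 : a₀ * e (Multiplicative.toAdd (Multiplicative.ofAdd (1 : ℤ_[p]))) ^ (p ^ k) = a₀ := by
      rw [toAdd_ofAdd, e_one, one_pow, mul_one]
    have h5 : (p : ℤ_[p]) ^ k * Multiplicative.toAdd (Multiplicative.ofAdd (1 : ℤ_[p])) =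
        (p : ℤ_[p]) ^ k := by
      rw [toAdd_ofAdd, mul_one]
    rw [h4, h5]
    exact h
  have h3 : (w.toAdd) ∈ {w : ℤ_[p] | psi k a₀ (Multiplicative.ofAdd w) ∈ L} := by
    have h4 : closure (Set.range (Nat.cast : ℕ → ℤ_[p])) ⊆
        {w : ℤ_[p] | psi k a₀ (Multiplicative.ofAdd w) ∈ L} := by
      apply closure_minimal _ h1
      rintro _ ⟨n, rfl⟩
      exact h2 n
    apply h4
    rw [PadicInt.denseRange_natCast.closure_range]
    trivial
  exact h3

/-- A closed additive subgroup of power series stable under multiplication by `X ^ (p ^ k)` is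
stable under multiplication by all `p ^ k`-th powers. -/
lemma stable_of (k : ℕ) (M : AddSubgroup (A p)) (hM : IsClosed (M : Set (A p)))
    (hX : ∀ m ∈ M, X ^ (p ^ k) * m ∈ M) (f : A p) (m : A p) (hm : m ∈ M) :
    f ^ (p ^ k) * m ∈ M := by
  let P : Subring (A p) :=
    { carrier := {f | ∀ m ∈ M, f ^ (p ^ k) * m ∈ M}
      mul_mem' := by
        intro f g hf hg m hm
        rw [mul_pow, mul_assoc]
        exact hf _ (hg _ hm)
      one_mem' := by
        intro m hm
        rwa [one_pow, one_mul]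
      add_mem' := by
        intro f g hf hg m hm
        rw [add_pow_char_pow, add_mul]
        exact M.add_mem (hf _ hm) (hg _ hm)
      zero_mem' := by
        intro m hm
        rw [zero_pow (pow_ne_zero _ hp.out.ne_zero), zero_mul]
        exact M.zero_mem
      neg_mem' := by
        intro f hf m hm
        have : (-f) ^ (p ^ k) * m = - (f ^ (p ^ k) * m) := by
          have h2 : (-f) ^ (p ^ k) = - f ^ (p ^ k) := by
            have h3 : (f + -f) ^ (p ^ k) = 0 := by
              rw [add_neg_cancel, zero_pow (pow_ne_zero _ hp.out.ne_zero)]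
            rw [add_pow_char_pow] at h3
            exact (neg_eq_of_add_eq_zero_right h3).symm
          rw [h2, neg_mul]
        rw [this]
        exact M.neg_mem (hf _ hm) }
  have hP : IsClosed (P : Set (A p)) := by
    have : (P : Set (A p)) = ⋂ m ∈ (M : Set (A p)), (fun f : A p => f ^ (p ^ k) * m) ⁻¹' M := by
      ext f
      simp only [Set.mem_iInter]
      exact Iff.rfl
    rw [this]
    apply isClosed_biInter
    intro m _
    exact hM.preimage ((continuous_id.pow _).mul continuous_const)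
  have hpoly : ∀ q : Polynomial (ZMod p), (q : A p) ∈ P := by
    intro q
    induction q using Polynomial.induction_on' with
    | add a b ha hb =>
      rw [Polynomial.coe_add]
      exact P.add_mem ha hb
    | monomial n c =>
      rw [Polynomial.coe_monomial]
      have : (monomial n c : A p) = (c.val : A p) * X ^ n := by
        ext i
        rw [coeff_monomial]
        have h2 : ((c.val : ℕ) : A p) = C c := by
          have : (C ((c.val : ℕ) : ZMod p) : A p) = ((c.val : ℕ) : A p) := map_natCast _ _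
          rw [← this, ZMod.natCast_zmod_val]
        rw [h2, coeff_C_mul, coeff_X_pow]
        split_ifs <;> simp
      rw [this]
      apply P.mul_mem (natCast_mem P _)
      apply P.pow_mem
      exact hX
  have hf : f ∈ P := by
    have h1 : closure (Set.range (Polynomial.toPowerSeries (R := ZMod p))) ⊆ (P : Set (A p)) := by
      apply closure_minimal _ hP
      rintro _ ⟨q, rfl⟩
      exact hpoly q
    apply h1
    rw [(WithPiTopology.denseRange_toPowerSeries (ZMod p)).closure_range]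
    trivial
  exact hf m hm

/-- the intersection with the base -/
def baseOf (L : Subgroup (G p (A p))) : AddSubgroup (A p) where
  carrier := {m | (⟨m, 0⟩ : G p (A p)) ∈ L}
  add_mem' := by
    intro a b ha hb
    have := L.mul_mem ha hb
    have h2 : (⟨a, 0⟩ : G p (A p)) * ⟨b, 0⟩ = ⟨a + b, 0⟩ := by ext1 <;> simp
    rw [h2] at this
    exact this
  zero_mem' := L.one_mem
  neg_mem' := by
    intro a ha
    have := L.inv_mem ha
    have h2 : (⟨a, 0⟩ : G p (A p))⁻¹ = ⟨-a, 0⟩ := by ext1 <;> simp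
    rw [h2] at this
    exact this

lemma mem_baseOf (L : Subgroup (G p (A p))) (m : A p) :
    m ∈ baseOf L ↔ (⟨m, 0⟩ : G p (A p)) ∈ L := Iff.rfl

lemma isClosed_baseOf (L : Subgroup (G p (A p))) (hL : IsClosed (L : Set (G p (A p)))) :
    IsClosed (baseOf L : Set (A p)) := by
  have : Continuous fun m : A p => (⟨m, 0⟩ : G p (A p)) :=
    G.continuous_mk' continuous_id continuous_const
  exact hL.preimage this

/-- conclusion for a closed subgroup -/
def Good (L : Subgroup (G p (A p))) : Prop :=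
  ∃ H : Subgroup (G p (A p)), H ≤ L ∧ IsClosed (H : Set (G p (A p))) ∧
    (H.subgroupOf L).index = p ∧
        ∃ f : H →* G p (A p), Continuous f ∧ (∀ h : H, f h ∈ L) ∧
          ∀ K : Subgroup (G p (A p)), ∀ hKH : K ≤ H,
            (∀ l ∈ L, ∀ k ∈ K, l * k * l⁻¹ ∈ K) →
            (∀ k : G p (A p), ∀ hk : k ∈ K, f ⟨k, hKH hk⟩ ∈ K) → K = ⊥

lemma good_of_mem (k : ℕ) (a₀ : A p) (L : Subgroup (G p (A p)))
    (hL : IsClosed (L : Set (G p (A p))))
    (h : (⟨a₀, (p : ℤ_[p]) ^ k⟩ : G p (A p)) ∈ L)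
    (hd : ∀ x ∈ L, (p : ℤ_[p]) ^ k ∣ x.z) : Good L := by
  have hstab : ∀ m ∈ baseOf L, X ^ (p ^ k) * m ∈ baseOf L := by
    intro m hm
    have h1 := L.mul_mem (L.mul_mem h hm) (L.inv_mem h)
    have h2 : (⟨a₀, (p : ℤ_[p]) ^ k⟩ : G p (A p)) * ⟨m, 0⟩ * (⟨a₀, (p : ℤ_[p]) ^ k⟩ : G p (A p))⁻¹ =
        ⟨E ((p : ℤ_[p]) ^ k) * m, 0⟩ := by
      ext1
      · simp only [G.mul_a, G.mul_z, G.inv_a, smul_eq_mul, add_zero, mul_neg, ← mul_assoc,
          E_mul_neg, one_mul]
        ring
      · simp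
    rw [h2, E_p_pow] at h1
    have h3 : (1 + X ^ (p ^ k)) * m ∈ baseOf L := h1
    have h4 := (baseOf L).sub_mem h3 hm
    convert h4 using 1
    ring
  let N : Submodule (A p) (Tw p k) :=
    { carrier := (baseOf L : Set (A p))
      add_mem' := fun ha hb => (baseOf L).add_mem ha hb
      zero_mem' := (baseOf L).zero_mem
      smul_mem' := by
        intro f m hm
        rw [Tw_smul_def]
        exact stable_of k (baseOf L) (isClosed_baseOf L hL) hstab f m hm }
  have hNmem : ∀ m : A p, m ∈ baseOf L ↔ (show Tw p k from m) ∈ N := fun m => Iff.rfl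
  obtain ⟨r, ⟨b⟩⟩ := exists_basis k N
  let m : Fin r → A p := fun i => (b i : Tw p k)
  have hsum : ∀ c : Fin r → A p, (∑ i, c i ^ (p ^ k) * m i) =
      (((∑ i, c i • b i : N) : Tw p k)) := by
    intro c
    rw [AddSubmonoidClass.coe_finsetSum]
    show (∑ i, c i ^ (p ^ k) * m i : A p) = ((∑ i, ((c i • b i : N) : Tw p k) : Tw p k))
    apply Finset.sum_congr rfl
    intro i _
    exact (Tw_smul_def k (c i) (b i)).symm
  have hpk : (p : ℤ_[p]) ^ k ≠ 0 := pow_ne_zero _ p_ne_zero'
  have hinj : Function.Injective (Psi k a₀ r m) := by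
    rw [injective_iff_map_eq_one]
    intro x hx
    have h1 : (p : ℤ_[p]) ^ k * x.z = 0 := congrArg G.z hx
    have hz : x.z = 0 := (mul_eq_zero.1 h1).resolve_left hpk
    have h2 : (∑ i, x.a i ^ (p ^ k) * m i) + a₀ * e x.z ^ (p ^ k) = 0 := congrArg G.a hx
    rw [hz, e_zero, zero_pow (pow_ne_zero _ hp.out.ne_zero), mul_zero, add_zero, hsum] at h2
    have h3 : (∑ i, x.a i • b i : N) = 0 := Subtype.ext h2
    have h4 := (Fintype.linearIndependent_iff.1 b.linearIndependent) _ h3
    ext1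
    · funext i
      exact h4 i
    · exact hz
  have hrange : (Psi k a₀ r m).range = L := by
    apply le_antisymm
    · rintro _ ⟨x, rfl⟩
      have h1 : Psi k a₀ r m x =
          (⟨∑ i, x.a i ^ (p ^ k) * m i, 0⟩ : G p (A p)) * psi k a₀ (Multiplicative.ofAdd x.z) := by
        rw [psi_apply]
        ext1
        · show (∑ i, x.a i ^ (p ^ k) * m i) + a₀ * e x.z ^ (p ^ k) =
            (∑ i, x.a i ^ (p ^ k) * m i) + E 0 * (a₀ * e x.z ^ (p ^ k))
          rw [E_zero, one_mul]
        · show (p : ℤ_[p]) ^ k * x.z = 0 + (p : ℤ_[p]) ^ k * x.z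
          rw [zero_add]
      rw [h1]
      apply L.mul_mem _ (psi_mem k a₀ L hL h _)
      show (∑ i, x.a i ^ (p ^ k) * m i) ∈ baseOf L
      rw [hsum]
      exact (∑ i, x.a i • b i : N).2
    · intro x hx
      obtain ⟨w, hw⟩ := hd x hx
      have h1 : x * (psi k a₀ (Multiplicative.ofAdd w))⁻¹ ∈ L :=
        L.mul_mem hx (L.inv_mem (psi_mem k a₀ L hL h _))
      have hx' : x = ⟨x.a, (p : ℤ_[p]) ^ k * w⟩ := by
        ext1
        · rfl
        · exact hw
      have h2 : x * (psi k a₀ (Multiplicative.ofAdd w))⁻¹ = ⟨x.a - a₀ * e w ^ (p ^ k), 0⟩ := by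
        rw [psi_apply, hx']
        exact G.mul_inv_same _ _ _
      rw [h2, ← mem_baseOf, hNmem] at h1
      refine ⟨⟨b.repr ⟨_, h1⟩, w⟩, ?_⟩
      ext1
      · show (∑ i, (b.repr ⟨_, h1⟩ i) ^ (p ^ k) * m i) + a₀ * e w ^ (p ^ k) = x.a
        rw [hsum (fun i => b.repr ⟨_, h1⟩ i), b.sum_repr]
        show x.a - a₀ * e w ^ (p ^ k) + a₀ * e w ^ (p ^ k) = x.a
        ring
      · exact hw.symm
  rcases r with _ | r
  · have h1 : (psi k a₀).range = L := by
      rw [← hrange]
      apply le_antisymm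
      · rintro _ ⟨x, rfl⟩
        refine ⟨⟨0, x.toAdd⟩, ?_⟩
        rw [psi_apply]
        ext1
        · show (∑ i : Fin 0, _) + a₀ * e x.toAdd ^ (p ^ k) = _
          simp
        · rfl
      · rintro _ ⟨x, rfl⟩
        refine ⟨Multiplicative.ofAdd x.z, ?_⟩
        rw [psi_apply]
        ext1
        · show _ = (∑ i : Fin 0, _) + a₀ * e x.z ^ (p ^ k)
          simp
        · rfl
    refine ss_Zp.transfer (psi k a₀) (continuous_psi k a₀) ?_ L h1
    intro x y hxy
    rw [psi_apply, psi_apply] at hxy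
    have h2 : (p : ℤ_[p]) ^ k * x.toAdd = (p : ℤ_[p]) ^ k * y.toAdd := congrArg G.z hxy
    exact Multiplicative.toAdd.injective (mul_left_cancel₀ hpk h2)
  · exact (ss_model r).transfer (Psi k a₀ (r + 1) m) (continuous_Psi k a₀ _ m) hinj L hrange

end Pool.Agent.H435R3.Lamp
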