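import Mathlib
import Pool.Agent.H435R3.Lamp.Main

set_option autoImplicit false
set_option linter.unusedSectionVars false

/-!
# The pro-`p` lamplighter group is strongly hereditarily self-similar of index `p`
-/

noncomputable section

namespace Pool.Agent.H435R3.Lamp

open PowerSeries Filter Topology
open scoped PowerSeries.WithPiTopology

variable {p : ℕ} [hp : Fact p.Prime]

/-- `A p` is a module over `ZMod p`; embedding of a finite dimensional subspace. -/
def finEmb (r : ℕ) (m : Fin r → A p) : Multiplicative (Fin r → ZMod p) →* G p (A p) where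
  toFun c := ⟨∑ i, c.toAdd i • m i, 0⟩
  map_one' := by
    ext1
    · show (∑ i, (0 : ZMod p) • m i) = 0
      simp
    · rfl
  map_mul' := by
    intro x y
    ext1
    · show (∑ i, (x.toAdd i + y.toAdd i) • m i) =
        (∑ i, x.toAdd i • m i) + E 0 * (∑ i, y.toAdd i • m i)
      rw [E_zero, one_mul, ← Finset.sum_add_distrib]
      simp only [add_smul]
    · show (0 : ℤ_[p]) = 0 + 0
      rw [add_zero]

lemma finite_of_fg (L : Subgroup (G p (A p))) (S : Finset (G p (A p)))
    (hS : (Subgroup.closure (S : Set (G p (A p)))).topologicalClosure = L)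
    (hz : ∀ x ∈ L, x.z = 0) : ∃ N : Submodule (ZMod p) (A p), Finite N ∧
      ∀ m : A p, m ∈ N ↔ (⟨m, 0⟩ : G p (A p)) ∈ L := by
  classical
  let N : Submodule (ZMod p) (A p) := Submodule.span (ZMod p) ((fun x : G p (A p) => x.a) '' S)
  have hNfin : Module.Finite (ZMod p) N :=
    Module.Finite.span_of_finite (ZMod p) (S.finite_toSet.image _)
  have hN : Finite N := Module.finite_of_finite (ZMod p)
  have hSL : ∀ x ∈ S, x ∈ L := by
    intro x hx
    rw [← hS]
    exact Subgroup.le_topologicalClosure _ (Subgroup.subset_closure hx)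
  -- the subgroup of the `(n, 0)`
  let T : Subgroup (G p (A p)) :=
    { carrier := {x | x.z = 0 ∧ x.a ∈ N}
      mul_mem' := by
        rintro x y ⟨hx, hx'⟩ ⟨hy, hy'⟩
        refine ⟨by rw [G.mul_z, hx, hy, add_zero], ?_⟩
        rw [G.mul_a, hx, E_zero, one_smul]
        exact N.add_mem hx' hy'
      one_mem' := ⟨rfl, N.zero_mem⟩
      inv_mem' := by
        rintro x ⟨hx, hx'⟩
        refine ⟨by rw [G.inv_z, hx, neg_zero], ?_⟩
        rw [G.inv_a, hx, neg_zero, E_zero, one_smul]
        exact N.neg_mem hx' }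
  have hTfin : (T : Set (G p (A p))).Finite := by
    have h1 : (T : Set (G p (A p))) ⊆ Set.range fun n : N => (⟨n, 0⟩ : G p (A p)) := by
      rintro x ⟨hx, hx'⟩
      refine ⟨⟨x.a, hx'⟩, ?_⟩
      ext1
      · rfl
      · exact hx.symm
    exact (Set.finite_range _).subset h1
  have hLT : L ≤ T := by
    rw [← hS]
    apply Subgroup.topologicalClosure_minimal
    · rw [Subgroup.closure_le]
      intro x hx
      exact ⟨hz x (hSL x hx), Submodule.subset_span ⟨x, hx, rfl⟩⟩
    · exact hTfin.isClosed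
  let P : Submodule (ZMod p) (A p) := AddSubgroup.toZModSubmodule p (baseOf L)
  have hP : ∀ m : A p, m ∈ P ↔ (⟨m, 0⟩ : G p (A p)) ∈ L := fun m => Iff.rfl
  refine ⟨P, ?_, hP⟩
  have hPN : P ≤ N := by
    intro m hm
    exact (hLT ((hP m).1 hm)).2
  have h5 : (N : Set (A p)).Finite := Set.toFinite _
  have h6 : (P : Set (A p)).Finite := h5.subset hPN
  exact h6.to_subtype

lemma good_of_zero (L : Subgroup (G p (A p))) (hne : L ≠ ⊥) (S : Finset (G p (A p)))
    (hS : (Subgroup.closure (S : Set (G p (A p)))).topologicalClosure = L)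
    (hz : ∀ x ∈ L, x.z = 0) : Good L := by
  obtain ⟨N, hN, hNL⟩ := finite_of_fg L S hS hz
  have : Module.Finite (ZMod p) N := Module.Finite.of_finite
  let b := Module.finBasis (ZMod p) N
  set r := Module.finrank (ZMod p) N with hr
  let m : Fin r → A p := fun i => (b i : A p)
  have hsum : ∀ c : Fin r → ZMod p, (∑ i, c i • m i) = ((∑ i, c i • b i : N) : A p) := by
    intro c
    rw [AddSubmonoidClass.coe_finsetSum]
    rfl
  have hinj : Function.Injective (finEmb r m) := by
    rw [injective_iff_map_eq_one]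
    intro x hx
    have h2 : (∑ i, x.toAdd i • m i) = 0 := congrArg G.a hx
    rw [hsum] at h2
    have h3 : (∑ i, x.toAdd i • b i : N) = 0 := Subtype.ext h2
    have h4 := (Fintype.linearIndependent_iff.1 b.linearIndependent) _ h3
    show x.toAdd = 0
    funext i
    exact h4 i
  have hrange : (finEmb r m).range = L := by
    apply le_antisymm
    · rintro _ ⟨c, rfl⟩
      show (⟨∑ i, c.toAdd i • m i, 0⟩ : G p (A p)) ∈ L
      rw [← hNL, hsum]
      exact (∑ i, c.toAdd i • b i : N).2
    · intro x hx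
      have hx' : x = ⟨x.a, 0⟩ := by
        ext1
        · rfl
        · exact hz x hx
      have h1 : x.a ∈ N := by
        rw [hNL, ← hx']
        exact hx
      refine ⟨Multiplicative.ofAdd (b.repr ⟨_, h1⟩), ?_⟩
      ext1
      · show (∑ i, (b.repr ⟨_, h1⟩ i) • m i) = x.a
        rw [hsum (fun i => b.repr ⟨_, h1⟩ i), b.sum_repr]
      · exact (hz x hx).symm
  have hfin : ∀ q : ℕ, Finite (Multiplicative (Fin q → ZMod p)) := fun q =>
    inferInstanceAs (Finite (Fin q → ZMod p))
  have key : ∀ q : ℕ, ∀ m : Fin q → A p, Function.Injective (finEmb q m) →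
      (finEmb q m).range = L → Good L := by
    intro q m hinj hrange
    rcases q with _ | q
    · exfalso
      apply hne
      rw [← hrange, eq_bot_iff]
      rintro _ ⟨x, rfl⟩
      rw [Subsingleton.elim x 1, map_one]
      exact Subgroup.one_mem _
    · exact (ss_finite q).transfer (finEmb (q + 1) m) continuous_of_discreteTopology hinj L hrange
  exact key r m hinj hrange

/-- The image in `ℤ_[p]` of a closed subgroup. -/
lemma image_cases (L : Subgroup (G p (A p))) (hL : IsClosed (L : Set (G p (A p)))) :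
    (∀ x ∈ L, x.z = 0) ∨ ∃ (k : ℕ) (a₀ : A p), (⟨a₀, (p : ℤ_[p]) ^ k⟩ : G p (A p)) ∈ L ∧
      ∀ x ∈ L, (p : ℤ_[p]) ^ k ∣ x.z := by
  have himg : IsClosed ((fun x : G p (A p) => x.z) '' L) :=
    (hL.isCompact.image G.continuous_z).isClosed
  let I : Ideal ℤ_[p] :=
    { carrier := (fun x : G p (A p) => x.z) '' L
      add_mem' := by
        rintro _ _ ⟨x, hx, rfl⟩ ⟨y, hy, rfl⟩
        exact ⟨x * y, L.mul_mem hx hy, rfl⟩
      zero_mem' := ⟨1, L.one_mem, rfl⟩
      smul_mem' := by
        rintro c _ ⟨x, hx, rfl⟩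
        have h1 : IsClosed {c : ℤ_[p] | c * x.z ∈ (fun x : G p (A p) => x.z) '' L} :=
          himg.preimage (continuous_id.mul continuous_const)
        have h2 : closure (Set.range (Nat.cast : ℕ → ℤ_[p])) ⊆
            {c : ℤ_[p] | c * x.z ∈ (fun x : G p (A p) => x.z) '' L} := by
          apply closure_minimal _ h1
          rintro _ ⟨n, rfl⟩
          refine ⟨x ^ n, L.pow_mem hx n, ?_⟩
          have : ∀ n : ℕ, (x ^ n).z = (n : ℤ_[p]) * x.z := by
            intro n
            induction n with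
            | zero => simp
            | succ n ih =>
              rw [pow_succ, G.mul_z, ih]
              push_cast
              ring
          exact this n
        apply h2
        rw [PadicInt.denseRange_natCast.closure_range]
        trivial }
  have hI : ∀ x ∈ L, x.z ∈ I := fun x hx => ⟨x, hx, rfl⟩
  by_cases h0 : I = ⊥
  · left
    intro x hx
    have := hI x hx
    rwa [h0, Submodule.mem_bot] at this
  · right
    obtain ⟨k, hk⟩ := PadicInt.ideal_eq_span_pow_p h0
    have h1 : (p : ℤ_[p]) ^ k ∈ I := by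
      rw [hk]
      exact Ideal.mem_span_singleton_self _
    obtain ⟨y, hy, hyz⟩ := h1
    refine ⟨k, y.a, ?_, ?_⟩
    · have : y = ⟨y.a, (p : ℤ_[p]) ^ k⟩ := by
        ext1
        · rfl
        · exact hyz
      rw [← this]
      exact hy
    · intro x hx
      rw [← Ideal.mem_span_singleton, ← hk]
      exact hI x hx

lemma good (L : Subgroup (G p (A p))) (hne : L ≠ ⊥)
    (hS : ∃ S : Finset (G p (A p)),
      (Subgroup.closure (S : Set (G p (A p)))).topologicalClosure = L) : Good L := by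
  obtain ⟨S, hS⟩ := hS
  have hL : IsClosed (L : Set (G p (A p))) := by
    rw [← hS]
    exact Subgroup.isClosed_topologicalClosure _
  rcases image_cases L hL with h | ⟨k, a₀, h1, h2⟩
  · exact good_of_zero L hne S hS h
  · exact good_of_mem k a₀ L hL h1 h2

/-- topological finite generation -/
lemma top_fg : ∃ S : Finset (G p (A p)),
    (Subgroup.closure (S : Set (G p (A p)))).topologicalClosure = ⊤ := by
  classical
  refine ⟨{⟨1, 0⟩, ⟨0, 1⟩}, ?_⟩
  set T := (Subgroup.closure
    (({⟨1, 0⟩, ⟨0, 1⟩} : Finset (G p (A p))) : Set (G p (A p)))).topologicalClosure with hT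
  have hTc : IsClosed (T : Set (G p (A p))) := Subgroup.isClosed_topologicalClosure _
  have h1 : (⟨1, 0⟩ : G p (A p)) ∈ T :=
    Subgroup.le_topologicalClosure _ (Subgroup.subset_closure (by simp))
  have h2 : (⟨0, 1⟩ : G p (A p)) ∈ T :=
    Subgroup.le_topologicalClosure _ (Subgroup.subset_closure (by simp))
  have h2' : (⟨0, (p : ℤ_[p]) ^ 0⟩ : G p (A p)) ∈ T := by
    rw [pow_zero]
    exact h2
  have hz : ∀ z : ℤ_[p], (⟨0, z⟩ : G p (A p)) ∈ T := by
    intro z
    have := psi_mem 0 0 T hTc h2' (Multiplicative.ofAdd z)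
    rw [psi_apply] at this
    simpa using this
  have hst : ∀ m ∈ baseOf T, X ^ (p ^ 0) * m ∈ baseOf T := by
    intro m hm
    have h3 := T.mul_mem (T.mul_mem h2 hm) (T.inv_mem h2)
    have h4 : (⟨0, 1⟩ : G p (A p)) * ⟨m, 0⟩ * (⟨0, 1⟩ : G p (A p))⁻¹ = ⟨E 1 * m, 0⟩ := by
      ext1 <;> simp
    rw [h4, E_one] at h3
    have h5 : (1 + X) * m ∈ baseOf T := h3
    have h6 := (baseOf T).sub_mem h5 hm
    convert h6 using 1
    rw [pow_zero]
    ring
  rw [eq_top_iff]
  intro x _
  have h3 : x.a ∈ baseOf T := by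
    have := stable_of 0 (baseOf T) (isClosed_baseOf T hTc) hst x.a 1 h1
    simpa using this
  have h4 : x = ⟨x.a, 0⟩ * ⟨0, x.z⟩ := by
    ext1 <;> simp
  rw [h4]
  exact T.mul_mem h3 (hz _)

lemma pow_z (x : G p (A p)) (n : ℕ) : (x ^ n).z = (n : ℤ_[p]) * x.z := by
  induction n with
  | zero => simp
  | succ n ih =>
    rw [pow_succ, G.mul_z, ih]
    push_cast
    ring

lemma index_pow (N : Subgroup (G p (A p))) (hN : N.Normal) (ho : IsOpen (N : Set (G p (A p)))) :
    ∃ k : ℕ, N.index = p ^ k := by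
  have hfin : Finite (G p (A p) ⧸ N) := Subgroup.quotient_finite_of_isOpen N ho
  have hpg : IsPGroup p (G p (A p) ⧸ N) := by
    intro y
    obtain ⟨x, rfl⟩ := QuotientGroup.mk_surjective y
    -- `(0, p ^ k z) ∈ N` for large `k`
    have hcont : Continuous fun z : ℤ_[p] => (⟨0, z⟩ : G p (A p)) :=
      G.continuous_mk' continuous_const continuous_id
    have hlim : Tendsto (fun k : ℕ => (p : ℤ_[p]) ^ k * x.z) atTop (𝓝 0) := by
      have h1 : Tendsto (fun k : ℕ => (p : ℤ_[p]) ^ k) atTop (𝓝 0) :=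
        tendsto_pow_atTop_nhds_zero_of_norm_lt_one (show ‖(p : ℤ_[p])‖ < 1 from Padic.norm_p_lt_one)
      have := h1.mul_const x.z
      rwa [zero_mul] at this
    have h2 : Tendsto (fun k : ℕ => (⟨0, (p : ℤ_[p]) ^ k * x.z⟩ : G p (A p))) atTop
        (𝓝 (⟨0, 0⟩ : G p (A p))) := (hcont.tendsto 0).comp hlim
    have h3 : (N : Set (G p (A p))) ∈ 𝓝 (⟨0, 0⟩ : G p (A p)) := ho.mem_nhds N.one_mem
    obtain ⟨k, hk⟩ := (h2.eventually h3).exists
    refine ⟨k + 1, ?_⟩
    rw [← QuotientGroup.mk_pow, QuotientGroup.eq_one_iff]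
    have h4 : x ^ (p ^ k) = ⟨(x ^ (p ^ k)).a, 0⟩ * ⟨0, (p : ℤ_[p]) ^ k * x.z⟩ := by
      ext1
      · simp
      · rw [pow_z]
        simp
    have h5 : ((x ^ (p ^ k) : G p (A p)) : G p (A p) ⧸ N) =
        ((⟨(x ^ (p ^ k)).a, 0⟩ : G p (A p)) : G p (A p) ⧸ N) := by
      rw [h4, QuotientGroup.mk_mul]
      have : ((⟨0, (p : ℤ_[p]) ^ k * x.z⟩ : G p (A p)) : G p (A p) ⧸ N) = 1 :=
        (QuotientGroup.eq_one_iff _).2 hk
      rw [this, mul_one]
      congr 1
      ext1
      · simp
      · simp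
    have h6 : (⟨(x ^ (p ^ k)).a, 0⟩ : G p (A p)) ^ p = 1 := by
      have : ∀ (b : A p) (n : ℕ), (⟨b, 0⟩ : G p (A p)) ^ n = ⟨n • b, 0⟩ := by
        intro b n
        induction n with
        | zero => rw [pow_zero, zero_smul]; rfl
        | succ n ih =>
          rw [pow_succ, ih]
          ext1
          · simp [add_mul]
          · simp
      rw [this]
      ext1
      · show p • _ = (0 : A p)
        rw [nsmul_eq_mul, CharP.cast_eq_zero, zero_mul]
      · rfl
    rw [← QuotientGroup.eq_one_iff, pow_succ, pow_mul, QuotientGroup.mk_pow, h5,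
      ← QuotientGroup.mk_pow, h6]
    rfl
  obtain ⟨k, hk⟩ := (IsPGroup.iff_card).1 hpg
  exact ⟨k, hk⟩

lemma not_finite_rank : ¬ ∃ r : ℕ, ∀ L : Subgroup (G p (A p)), IsClosed (L : Set (G p (A p))) →
      ∃ S : Finset (G p (A p)), S.card ≤ r ∧
        (Subgroup.closure (S : Set (G p (A p)))).topologicalClosure = L := by
  rintro ⟨r, hr⟩
  have hker : ((G.pr (p := p) (M := A p)).ker : Set (G p (A p))) = (fun x => x.z) ⁻¹' {0} := by
    ext x
    exact Iff.rfl
  have hc : IsClosed ((G.pr (p := p) (M := A p)).ker : Set (G p (A p))) := by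
    rw [hker]
    exact isClosed_singleton.preimage G.continuous_z
  obtain ⟨S, -, hS⟩ := hr _ hc
  obtain ⟨N, hN, hNL⟩ := finite_of_fg _ S hS (fun x hx => hx)
  have h1 : ∀ m : A p, m ∈ N := fun m => (hNL m).2 rfl
  have h2 : Finite (A p) := by
    have : Function.Surjective (Subtype.val : N → A p) := fun m => ⟨⟨m, h1 m⟩, rfl⟩
    exact Finite.of_surjective _ this
  have h3 : Function.Injective fun n : ℕ => (X : A p) ^ n := by
    intro a b hab
    have := congrArg (coeff a) hab
    rw [coeff_X_pow, coeff_X_pow, if_pos rfl] at this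
    by_contra hne
    rw [if_neg hne] at this
    exact one_ne_zero this
  exact not_injective_infinite_finite _ h3

theorem main :
  ∃ (p : ℕ) (G : Type) (_ : Group G) (_ : TopologicalSpace G) (_ : IsTopologicalGroup G)
    (_ : CompactSpace G) (_ : T2Space G) (_ : TotallyDisconnectedSpace G),
    p.Prime ∧
    (∀ N : Subgroup G, N.Normal → IsOpen (N : Set G) → ∃ k : ℕ, N.index = p ^ k) ∧
    (∃ S : Finset G, (Subgroup.closure (S : Set G)).topologicalClosure = ⊤) ∧
    (∀ L : Subgroup G, L ≠ ⊥ →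
      (∃ S : Finset G, (Subgroup.closure (S : Set G)).topologicalClosure = L) →
      ∃ H : Subgroup G, H ≤ L ∧ IsClosed (H : Set G) ∧ (H.subgroupOf L).index = p ∧
        ∃ f : H →* G, Continuous f ∧ (∀ h : H, f h ∈ L) ∧
          ∀ K : Subgroup G, ∀ hKH : K ≤ H,
            (∀ l ∈ L, ∀ k ∈ K, l * k * l⁻¹ ∈ K) →
            (∀ k : G, ∀ hk : k ∈ K, f ⟨k, hKH hk⟩ ∈ K) → K = ⊥) ∧
    ¬ ∃ r : ℕ, ∀ L : Subgroup G, IsClosed (L : Set G) →
      ∃ S : Finset G, S.card ≤ r ∧ (Subgroup.closure (S : Set G)).topologicalClosure = L := by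
  have : Fact (Nat.Prime 2) := ⟨Nat.prime_two⟩
  exact ⟨2, G 2 (A 2), inferInstance, inferInstance, inferInstance, inferInstance, inferInstance,
    inferInstance, Nat.prime_two, index_pow, top_fg, good, not_finite_rank⟩

end Pool.Agent.H435R3.Lamp
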